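import Pool.Agent.W601.RP.Stm2

/-!
# The letters coding combinations of generators
-/

set_option autoImplicit false
open scoped Classical
open Filter Topology

namespace Pool.Agent.W766.RP

open Pool.Agent.W601.RP

theorem pre_len (q : ℕ → ℕ) (n : ℕ) : (pre q n).length = n := by
  simp [pre]

theorem pre_getD (q : ℕ → ℕ) (n i : ℕ) (h : i < n) : (pre q n).getD i 0 = q i := by
  simp [pre, List.getD, h]

theorem norm_half (c : ℤ) (hc : c ≠ 0) :
    ‖c • (((1 / (2 * ((c.natAbs : ℕ) : ℝ)) : ℝ)) : TT)‖ = 1 / 2 := by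
  have hn : ((c.natAbs : ℕ) : ℝ) ≠ 0 := by
    exact_mod_cast Int.natAbs_ne_zero.mpr hc
  have hh : ‖(((1 / 2 : ℝ)) : TT)‖ = 1 / 2 := by
    have h := AddCircle.norm_half_period_eq (p := (1 : ℝ))
    simpa using h
  have h1 : c • (((1 / (2 * ((c.natAbs : ℕ) : ℝ)) : ℝ)) : TT) =
      (((c : ℝ) * (1 / (2 * ((c.natAbs : ℕ) : ℝ))) : ℝ) : TT) := by
    rw [← AddCircle.coe_zsmul, zsmul_eq_mul]
  rw [h1]
  rcases Int.natAbs_eq c with h | h
  · have h2 : (c : ℝ) = ((c.natAbs : ℕ) : ℝ) := by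
      have h3 : ((c : ℤ) : ℝ) = (((c.natAbs : ℕ) : ℤ) : ℝ) := congrArg _ h
      rw [h3, Int.cast_natCast]
    have h4 : (c : ℝ) * (1 / (2 * ((c.natAbs : ℕ) : ℝ))) = 1 / 2 := by
      rw [h2]
      field_simp
    rw [h4, hh]
  · have h2 : (c : ℝ) = -((c.natAbs : ℕ) : ℝ) := by
      have h3 : ((c : ℤ) : ℝ) = ((-((c.natAbs : ℕ) : ℤ) : ℤ) : ℝ) := congrArg _ h
      rw [h3, Int.cast_neg, Int.cast_natCast]
    have h4 : (c : ℝ) * (1 / (2 * ((c.natAbs : ℕ) : ℝ))) = -(1 / 2) := by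
      rw [h2]
      field_simp
    rw [h4, AddCircle.coe_neg, norm_neg, hh]

theorem mkl : S_MKL := by
  intro F c q1 hF hq1
  have h1 : ∀ q q' : ℕ → ℕ, ∃ i, q ≠ q' → q i ≠ q' i := by
    intro q q'
    by_cases h : q = q'
    · exact ⟨0, fun h' => absurd h h'⟩
    · obtain ⟨i, hi⟩ := Function.ne_iff.mp h
      exact ⟨i, fun _ => hi⟩
  choose d hd using h1
  obtain ⟨n1, hn1⟩ : ∃ n1, n1 = (F ×ˢ F).sup (fun p => d p.1 p.2 + 1) := ⟨_, rfl⟩
  have hinj : ∀ n, n1 ≤ n → ∀ q ∈ F, ∀ q' ∈ F, q ≠ q' → pre q n ≠ pre q' n := by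
    intro n hn q hq q' hq' hne he
    have h2 : d q q' + 1 ≤ n1 := by
      rw [hn1]
      exact Finset.le_sup (f := fun p : (ℕ → ℕ) × (ℕ → ℕ) => d p.1 p.2 + 1)
        (Finset.mem_product.mpr ⟨hq, hq'⟩ : (q, q') ∈ F ×ˢ F)
    have h3 := pre_getD q n (d q q') (by omega)
    have h4 := pre_getD q' n (d q q') (by omega)
    rw [he, h4] at h3
    exact hd q q' hne h3.symm
  refine ⟨n1 + (c q1).natAbs + F.card + 1, fun n hn => ?_⟩
  have hs : sL (mkL F c q1 n) = pre q1 n := by simp [sL, mkL]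
  have hnL : nL (mkL F c q1 n) = n := by
    unfold nL
    rw [hs, pre_len]
  have hmem : ∀ s ∈ (mkL F c q1 n).2, ∃ q ∈ F, s = pre q n := by
    intro s h
    simp only [mkL, List.mem_cons, List.mem_map, Finset.mem_toList, Finset.mem_erase] at h
    rcases h with h | ⟨q, hq, h⟩
    · exact ⟨q1, hq1, h⟩
    · exact ⟨q, hq.2, h.symm⟩
  refine ⟨⟨?_, ?_, ?_, ?_, ?_, ?_, ?_⟩, hnL, hs, ?_⟩
  · exact Int.natAbs_pos.mpr (hF q1 hq1).2
  · rw [hnL]
    simp only [mkL]
    omega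
  · simp [mkL]
  · rw [hnL]
    simp only [mkL, List.length_cons, List.length_map, Finset.length_toList]
    have := Finset.card_erase_of_mem hq1
    have := Finset.card_pos.mpr ⟨q1, hq1⟩
    omega
  · simp only [mkL, List.nodup_cons]
    constructor
    · intro h
      rw [List.mem_map] at h
      obtain ⟨q, hq, he⟩ := h
      rw [Finset.mem_toList, Finset.mem_erase] at hq
      exact hinj n (by omega) q hq.2 q1 hq1 hq.1 he
    · refine List.Nodup.map_on ?_ (Finset.nodup_toList _)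
      intro a ha b hb he
      rw [Finset.mem_toList, Finset.mem_erase] at ha hb
      by_contra hne
      exact hinj n (by omega) a ha.2 b hb.2 hne he
  · intro s h
    obtain ⟨q, _, he⟩ := hmem s h
    rw [he, hnL, pre_len]
  · intro s h i hi
    obtain ⟨q, hq, he⟩ := hmem s h
    rw [hnL] at hi
    rw [he, pre_getD q n i hi]
    exact (hF q hq).1.1 i
  · intro t ht hlt
    rw [Finset.sum_apply, Finset.sum_eq_single q1]
    · rw [Pi.smul_apply]
      have hx : x q1 t = (((1 / (2 * (((c q1).natAbs : ℕ) : ℝ)) : ℝ)) : TT) := by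
        unfold x
        rw [hlt, hnL, hs]
        rw [if_pos ⟨ht, by simp [mkL]⟩, if_pos rfl]
        rfl
      rw [hx]
      exact norm_half _ (hF q1 hq1).2
    · intro q hq hne
      rw [Pi.smul_apply]
      have hx : x q t = 0 := by
        unfold x
        rw [hlt, hnL, hs]
        have hm : pre q n ∈ (mkL F c q1 n).2 := by
          unfold mkL
          refine List.mem_cons_of_mem _ ?_
          exact List.mem_map.mpr ⟨q, Finset.mem_toList.mpr (Finset.mem_erase.mpr ⟨hne, hq⟩), rfl⟩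
        rw [if_pos ⟨ht, hm⟩, if_neg (hinj n (by omega) q hq q1 hq1 hne)]
      rw [hx, smul_zero]
    · intro h
      exact absurd hq1 h

end Pool.Agent.W766.RP
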